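import Pool.Agent.R583.SC.Main

/-!
# A `σ`-space of countable `i`-weight outside the class `SC_p(M₀^{<ω})`

Let `ρ : ℝ → ω₁` have all its (nonzero) fibres nonmeagre in every open set. The space `X` is
`{∞} ∪ (ℝ² × ω)`. The points off the diagonals of the planes are isolated. The point `(z, z, j)` has
the cross-shaped neighbourhoods
`{(z, b, j) : |z - b| < ε, γ < ρ b ≤ ρ z} ∪ {(a, z, j) : |a - z| < ε}` with `γ < ρ z`, and `∞` has
the neighbourhoods `{∞} ∪ {(a, b, j) : j ≥ n, ρ b > β}`, `n < ω`, `β < ω₁`.

* `X` is a countable union of closed discrete subspaces, zero-dimensional, of weight `≤ 𝔠`, and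
  condenses onto a subset of `ℝ³`.
* Pressing down: if `F` is continuous on `X` then there is `γ < ω₁` such that `z ↦ F (z, z, j)`,
  restricted to `{ρ > γ}`, has arbitrarily small oscillation on some open subset of any given open
  set.
* Modulo a residual set this passes to pointwise limits of sequences. If `e` embeds `X` in
  `SC_p(M^{<ω})` and `S` is a countable dense subset of `M` then every function `x ↦ e x m` is
  obtained from the countably many functions `x ↦ e x d`, `d ∈ S^{<ω}`, by finitely many iterated
  limits, so that one `γ` works for all of them. Then no neighbourhood of `∞` defined by finitely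
  many `m` can be contained in `{∞} ∪ {(a, b, j) : ρ b > γ + 1}`.
-/

set_option autoImplicit false

open Pool.Agent.R583.SC Topology Cardinal

namespace Pool.Agent.Results.MP_713d40_gt.NotEmbeddable

universe u

/-- There is a `σ`-space `X` of weight at most `𝔠`, with a continuous injection into `ℝ³`, which
embeds in no space `SC_p(M^{<ω})` with `M` separable metrizable. -/
theorem result : ∃ (X : Type) (_ : TopologicalSpace X),
    T35Space X ∧ IsSigmaSpace X ∧
    (∃ B : Set (Set X), TopologicalSpace.IsTopologicalBasis B ∧ #B ≤ 𝔠) ∧
    (∃ j : X → ℝ × ℝ × ℝ, Continuous j ∧ Function.Injective j) ∧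
    ∀ (M : Type u) [TopologicalSpace M] [TopologicalSpace.MetrizableSpace M]
      [TopologicalSpace.SeparableSpace M] (e : X → SCp M), ¬ IsEmbedding e :=
  main

end Pool.Agent.Results.MP_713d40_gt.NotEmbeddable
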